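import Pool.Agent.X29.Asd.Lam

set_option autoImplicit false

/-!
# The series `E₄`, `E₆`, `Δ` and `E₄ ^ 3 - J Δ`, over a ring and packed
-/

namespace Pool.Agent.X29.Asd

open Finset PowerSeries

def f3 (d : ℕ) : ℕ := d ^ 3
def f5 (d : ℕ) : ℕ := d ^ 5
def fw (d : ℕ) : ℕ := (5 * d ^ 3 + 7 * d ^ 5) / 12

theorem twelve_dvd (d : ℕ) : 12 ∣ 5 * d ^ 3 + 7 * d ^ 5 := by
  rw [Nat.dvd_iff_mod_eq_zero, Nat.add_mod, Nat.mul_mod, Nat.mul_mod 7, Nat.pow_mod,
    Nat.pow_mod d 5]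
  have h : d % 12 < 12 := Nat.mod_lt _ (by norm_num)
  generalize d % 12 = x at h
  interval_cases x <;> rfl

theorem fw_le (d : ℕ) : fw d ≤ d ^ 5 := by
  unfold fw
  rcases Nat.eq_zero_or_pos d with h | h
  · subst h
    norm_num
  · have h1 : d ^ 3 ≤ d ^ 5 := Nat.pow_le_pow_right h (by norm_num)
    omega

/-- the series of `Δ` -/
noncomputable def De (R : Type*) [CommRing R] : PowerSeries R :=
  lam R fw + 100 * (lam R f3 * lam R f3) + 8000 * (lam R f3 * lam R f3 * lam R f3)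
    - 147 * (lam R f5 * lam R f5)

/-- the series `E₄ ^ 3 - J Δ` -/
noncomputable def Hs (R : Type*) [CommRing R] (J : ℕ) : PowerSeries R :=
  (1 + 240 * lam R f3) ^ 3 - (J : PowerSeries R) * De R

noncomputable def K4 (R : Type*) [CommRing R] : PowerSeries R := (1 + 240 * lam R f3) * De R
noncomputable def K6 (R : Type*) [CommRing R] : PowerSeries R := (1 - 504 * lam R f5) * De R

theorem map_lam {R S : Type*} [CommRing R] [CommRing S] (φ : R →+* S) (f : ℕ → ℕ) :
    PowerSeries.map φ (lam R f) = lam S f := by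
  ext n
  unfold lam
  rw [PowerSeries.coeff_map, PowerSeries.coeff_mk, PowerSeries.coeff_mk, map_natCast]

theorem map_De {R S : Type*} [CommRing R] [CommRing S] (φ : R →+* S) :
    PowerSeries.map φ (De R) = De S := by
  unfold De
  simp only [map_sub, map_add, map_mul, map_lam, map_ofNat]

theorem map_Hs {R S : Type*} [CommRing R] [CommRing S] (φ : R →+* S) (J : ℕ) :
    PowerSeries.map φ (Hs R J) = Hs S J := by
  unfold Hs
  simp only [map_sub, map_add, map_mul, map_pow, map_lam, map_ofNat, map_one, map_natCast, map_De]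

theorem map_K4 {R S : Type*} [CommRing R] [CommRing S] (φ : R →+* S) :
    PowerSeries.map φ (K4 R) = K4 S := by
  unfold K4
  simp only [map_add, map_mul, map_lam, map_ofNat, map_one, map_De]

theorem map_K6 {R S : Type*} [CommRing R] [CommRing S] (φ : R →+* S) :
    PowerSeries.map φ (K6 R) = K6 S := by
  unfold K6
  simp only [map_sub, map_mul, map_lam, map_ofNat, map_one, map_De]

theorem constCoeff_lam (R : Type*) [CommRing R] (f : ℕ → ℕ) :
    PowerSeries.constantCoeff (lam R f) = 0 := by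
  rw [← PowerSeries.coeff_zero_eq_constantCoeff_apply]
  unfold lam
  rw [PowerSeries.coeff_mk, Nat.divisors_zero, Finset.sum_empty, Nat.cast_zero]

theorem constCoeff_De (R : Type*) [CommRing R] : PowerSeries.constantCoeff (De R) = 0 := by
  unfold De
  simp [constCoeff_lam]

theorem constCoeff_Hs (R : Type*) [CommRing R] (J : ℕ) :
    PowerSeries.constantCoeff (Hs R J) = 1 := by
  unfold Hs
  simp [constCoeff_lam, constCoeff_De]

theorem isUnit_Hs (R : Type*) [CommRing R] (J : ℕ) : IsUnit (Hs R J) := by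
  rw [PowerSeries.isUnit_iff_constantCoeff, constCoeff_Hs]
  exact isUnit_one

/-- the quotient `E₄ Δ / (E₄ ^ 3 - J Δ)` exists over `ℤ` -/
theorem exists_quot (J : ℕ) (K : PowerSeries ℤ) : ∃ F : PowerSeries ℤ, Hs ℤ J * F = K := by
  obtain ⟨u, hu⟩ := isUnit_Hs ℤ J
  refine ⟨(↑u⁻¹ : PowerSeries ℤ) * K, ?_⟩
  rw [← hu, ← mul_assoc, Units.mul_inv, one_mul]

/-! ### packed versions -/

section Packed

variable (B M h : ℕ)

def nT3 : ℕ := red B M h (tsum2 (gterm B (2 ^ h) f3) h 0)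
def nT5 : ℕ := red B M h (tsum2 (gterm B (2 ^ h) f5) h 0)
def nW : ℕ := red B M h (tsum2 (gterm B (2 ^ h) fw) h 0)
def nA2 : ℕ := rmul B M h (nT3 B M h) (nT3 B M h)
def nA3 : ℕ := rmul B M h (nA2 B M h) (nT3 B M h)
def nB2 : ℕ := rmul B M h (nT5 B M h) (nT5 B M h)
def nDe : ℕ := red B M h (nW B M h + 100 * nA2 B M h + 8000 * nA3 B M h +
  147 * (M - 1) * nB2 B M h)
def nH (J : ℕ) : ℕ := red B M h (1 + 720 * nT3 B M h + 172800 * nA2 B M h +
  13824000 * nA3 B M h + (J * (M - 1)) * nDe B M h)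
def nK4 : ℕ := red B M h (nDe B M h + 240 * rmul B M h (nT3 B M h) (nDe B M h))
def nK6 : ℕ := red B M h (nDe B M h + 504 * (M - 1) * rmul B M h (nT5 B M h) (nDe B M h))

/-- Newton iteration for the inverse of `H` -/
def ninv (H : ℕ) : ℕ → ℕ
  | 0 => 1
  | i + 1 => rmul B M (i + 1) (ninv H i) (red B M (i + 1)
      (2 + (M - 1) * rmul B M (i + 1) (H % B ^ (2 ^ (i + 1))) (ninv H i)))

def nG4 (J : ℕ) : ℕ := rmul B M h (nK4 B M h) (ninv B M (nH B M h J) h)
def nG6 (J : ℕ) : ℕ := rmul B M h (nK6 B M h) (ninv B M (nH B M h J) h)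

end Packed

/-- the sizes are compatible -/
structure Ok (B M h J : ℕ) : Prop where
  one : 1 < M
  s1 : 2 ^ h * (2 ^ h) ^ 5 < B
  s2 : 2 ^ h * (M * M) < B
  s3 : 14000000 * M + J * (M * M) < B
  s4 : 504 * (M * M) + M < B

theorem Ok.pos {B M h J : ℕ} (o : Ok B M h J) : 0 < M := by have := o.one; omega

theorem Ok.sq {B M h J : ℕ} (o : Ok B M h J) : M * M < B := by
  have h1 := o.s2
  have h2 : 1 ≤ 2 ^ h := Nat.one_le_two_pow
  have h3 : M * M ≤ 2 ^ h * (M * M) := Nat.le_mul_of_pos_left _ h2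
  omega

theorem Ok.le {B M h J : ℕ} (o : Ok B M h J) : M ≤ B := by
  have h1 := o.sq
  have h2 := o.one
  have h3 : M ≤ M * M := Nat.le_mul_self M
  omega

theorem Ok.two {B M h J : ℕ} (o : Ok B M h J) : 2 ≤ B := by
  have := o.one
  have := o.le
  omega

theorem rep_lam {B M h J : ℕ} (o : Ok B M h J) (f : ℕ → ℕ) (hf : ∀ d, f d ≤ d ^ 5) :
    Rep B M (2 ^ h) (M - 1) (lam (ZMod M) f) (red B M h (tsum2 (gterm B (2 ^ h) f) h 0)) := by
  refine (Rep.lam (L := (2 ^ h) ^ 5) f o.s1 o.two ?_).ofRed o.pos o.le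
  intro d hd
  exact (hf d).trans (Nat.pow_le_pow_left hd.le 5)

theorem rep_T3 {B M h J : ℕ} (o : Ok B M h J) :
    Rep B M (2 ^ h) (M - 1) (lam (ZMod M) f3) (nT3 B M h) := by
  apply rep_lam o
  intro d
  unfold f3
  rcases Nat.eq_zero_or_pos d with h | h
  · subst h
    norm_num
  · exact Nat.pow_le_pow_right h (by norm_num)

theorem rep_T5 {B M h J : ℕ} (o : Ok B M h J) :
    Rep B M (2 ^ h) (M - 1) (lam (ZMod M) f5) (nT5 B M h) :=
  rep_lam o f5 (fun _ => le_refl _)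

theorem rep_W {B M h J : ℕ} (o : Ok B M h J) :
    Rep B M (2 ^ h) (M - 1) (lam (ZMod M) fw) (nW B M h) :=
  rep_lam o fw fw_le

theorem Ok.mm {B M h J : ℕ} (o : Ok B M h J) : 2 ^ h * ((M - 1) * (M - 1)) < B :=
  lt_of_le_of_lt (Nat.mul_le_mul_left _ (Nat.mul_le_mul (Nat.sub_le _ _) (Nat.sub_le _ _))) o.s2

theorem rep_rmul {B M h J : ℕ} (o : Ok B M h J) {f g : PowerSeries (ZMod M)} {A C : ℕ}
    (hA : Rep B M (2 ^ h) (M - 1) f A) (hC : Rep B M (2 ^ h) (M - 1) g C) :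
    Rep B M (2 ^ h) (M - 1) (f * g) (rmul B M h A C) :=
  Rep.mul o.pos o.le o.mm hA hC

theorem rep_A2 {B M h J : ℕ} (o : Ok B M h J) :
    Rep B M (2 ^ h) (M - 1) (lam (ZMod M) f3 * lam (ZMod M) f3) (nA2 B M h) :=
  rep_rmul o (rep_T3 o) (rep_T3 o)

theorem rep_A3 {B M h J : ℕ} (o : Ok B M h J) :
    Rep B M (2 ^ h) (M - 1) (lam (ZMod M) f3 * lam (ZMod M) f3 * lam (ZMod M) f3)
      (nA3 B M h) :=
  rep_rmul o (rep_A2 o) (rep_T3 o)

theorem rep_B2 {B M h J : ℕ} (o : Ok B M h J) :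
    Rep B M (2 ^ h) (M - 1) (lam (ZMod M) f5 * lam (ZMod M) f5) (nB2 B M h) :=
  rep_rmul o (rep_T5 o) (rep_T5 o)

theorem cast_pred {M : ℕ} (hM : 0 < M) (c : ℕ) :
    ((c * (M - 1) : ℕ) : PowerSeries (ZMod M)) = -(c : PowerSeries (ZMod M)) := by
  have h0 : ((M : ℕ) : PowerSeries (ZMod M)) = 0 := by
    have : ((M : ℕ) : PowerSeries (ZMod M)) = PowerSeries.C ((M : ℕ) : ZMod M) := by
      rw [map_natCast]
    rw [this, ZMod.natCast_self, map_zero]
  rw [Nat.cast_mul, Nat.cast_sub hM, h0]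
  push_cast
  ring

theorem bd {M a : ℕ} : a * (M - 1) * (M - 1) ≤ a * (M * M) := by
  rw [mul_assoc]
  exact Nat.mul_le_mul_left _ (Nat.mul_le_mul (Nat.sub_le _ _) (Nat.sub_le _ _))

theorem bd1 {M a : ℕ} : a * (M - 1) ≤ a * M := Nat.mul_le_mul_left _ (Nat.sub_le _ _)

theorem rep_De {B M h J : ℕ} (o : Ok B M h J) :
    Rep B M (2 ^ h) (M - 1) (De (ZMod M)) (nDe B M h) := by
  have h1 := o.one
  have h2 := o.s3
  have h3 := o.s4
  have c1 := @bd M 147
  have c2 := @bd1 M 100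
  have c3 := @bd1 M 8000
  have c4 : M ≤ M * M := Nat.le_mul_self M
  have r1 := rep_W o
  have r2 := (rep_A2 o).smul 100 (by omega)
  have r3 := (rep_A3 o).smul 8000 (by omega)
  have r4 := (rep_B2 o).smul (147 * (M - 1)) (by omega)
  have r5 := ((r1.add (by omega) r2).add (by omega) r3).add (by omega) r4
  have r6 := r5.ofRed o.pos o.le
  have e3 : De (ZMod M) = lam (ZMod M) fw +
      ((100 : ℕ) : PowerSeries (ZMod M)) * (lam (ZMod M) f3 * lam (ZMod M) f3) +
      ((8000 : ℕ) : PowerSeries (ZMod M)) *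
        (lam (ZMod M) f3 * lam (ZMod M) f3 * lam (ZMod M) f3) +
      ((147 * (M - 1) : ℕ) : PowerSeries (ZMod M)) *
        (lam (ZMod M) f5 * lam (ZMod M) f5) := by
    rw [cast_pred o.pos 147]
    unfold De
    push_cast
    ring
  rw [e3]
  unfold nDe
  exact r6

theorem rep_H {B M h J : ℕ} (o : Ok B M h J) :
    Rep B M (2 ^ h) (M - 1) (Hs (ZMod M) J) (nH B M h J) := by
  have h1 := o.one
  have h2 := o.s3
  have h3 := o.s4
  have c1 := @bd M J
  have c2 := @bd1 M 720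
  have c3 := @bd1 M 172800
  have c4 := @bd1 M 13824000
  have c5 : M ≤ M * M := Nat.le_mul_self M
  have r1 : Rep B M (2 ^ h) 1 (1 : PowerSeries (ZMod M)) 1 :=
    Rep.one (by have := o.two; omega) (Nat.two_pow_pos h)
  have r2 := (rep_T3 o).smul 720 (by omega)
  have r3 := (rep_A2 o).smul 172800 (by omega)
  have r4 := (rep_A3 o).smul 13824000 (by omega)
  have r5 := (rep_De o).smul (J * (M - 1)) (by omega)
  have r6 := (((r1.add (by omega) r2).add (by omega) r3).add (by omega) r4).add (by omega) r5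
  have r7 := r6.ofRed o.pos o.le
  have e3 : Hs (ZMod M) J = 1 +
      ((720 : ℕ) : PowerSeries (ZMod M)) * lam (ZMod M) f3 +
      ((172800 : ℕ) : PowerSeries (ZMod M)) * (lam (ZMod M) f3 * lam (ZMod M) f3) +
      ((13824000 : ℕ) : PowerSeries (ZMod M)) *
        (lam (ZMod M) f3 * lam (ZMod M) f3 * lam (ZMod M) f3) +
      ((J * (M - 1) : ℕ) : PowerSeries (ZMod M)) * De (ZMod M) := by
    rw [cast_pred o.pos J]
    unfold Hs
    push_cast
    ring
  rw [e3]
  unfold nH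
  exact r7

theorem rep_K4 {B M h J : ℕ} (o : Ok B M h J) :
    Rep B M (2 ^ h) (M - 1) (K4 (ZMod M)) (nK4 B M h) := by
  have h1 := o.one
  have h2 := o.s3
  have c2 := @bd1 M 240
  have r1 := rep_De o
  have r2 := (rep_rmul o (rep_T3 o) (rep_De o)).smul 240 (by omega)
  have r3 := (r1.add (by omega) r2).ofRed o.pos o.le
  have e3 : K4 (ZMod M) = De (ZMod M) +
      ((240 : ℕ) : PowerSeries (ZMod M)) * (lam (ZMod M) f3 * De (ZMod M)) := by
    unfold K4
    push_cast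
    ring
  rw [e3]
  unfold nK4
  exact r3

theorem rep_K6 {B M h J : ℕ} (o : Ok B M h J) :
    Rep B M (2 ^ h) (M - 1) (K6 (ZMod M)) (nK6 B M h) := by
  have h1 := o.one
  have h2 := o.s4
  have c2 := @bd M 504
  have r1 := rep_De o
  have r2 := (rep_rmul o (rep_T5 o) (rep_De o)).smul (504 * (M - 1)) (by omega)
  have r3 := (r1.add (by omega) r2).ofRed o.pos o.le
  have e3 : K6 (ZMod M) = De (ZMod M) +
      ((504 * (M - 1) : ℕ) : PowerSeries (ZMod M)) * (lam (ZMod M) f5 * De (ZMod M)) := by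
    rw [cast_pred o.pos 504]
    unfold K6
    push_cast
    ring
  rw [e3]
  unfold nK6
  exact r3

theorem rep_ser_rmul {B M h J : ℕ} (o : Ok B M h J) (A C : ℕ) :
    Rep B M (2 ^ h) (M - 1) (ser B M (rmul B M h A C)) (rmul B M h A C) := by
  have hP : 0 < B ^ (2 ^ h) := Nat.pow_pos (by have := o.two; omega)
  have hlt : A * C % B ^ (2 ^ h) < B ^ (2 ^ h) := Nat.mod_lt _ hP
  unfold rmul
  refine Rep.ser (red_lt o.pos o.le h hlt) ?_ (red_red_dig o.pos o.le h hlt)
  have := o.le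
  have := o.pos
  omega

/-- the coefficients of the quotient are the digits of a checked number -/
theorem main {B M h J : ℕ} (o : Ok B M h J) {K : (R : Type) → [CommRing R] → PowerSeries R}
    (hK : PowerSeries.map (Int.castRingHom (ZMod M)) (K ℤ) = K (ZMod M)) {nK : ℕ}
    (rK : Rep B M (2 ^ h) (M - 1) (K (ZMod M)) nK) (A C : ℕ)
    (chk : rmul B M h (nH B M h J) (rmul B M h A C) = nK)
    {F : PowerSeries ℤ} (hF : Hs ℤ J * F = K ℤ) (i : ℕ) (hi : i < 2 ^ h) :
    ((PowerSeries.coeff i F : ℤ) : ZMod M) = ((dig B i (rmul B M h A C) : ℕ) : ZMod M) := by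
  have r1 := rep_ser_rmul o A C
  have r2 := rep_rmul o (rep_H o) r1
  rw [chk] at r2
  have h1 : Hs (ZMod M) J * PowerSeries.map (Int.castRingHom (ZMod M)) F = K (ZMod M) := by
    rw [← map_Hs (Int.castRingHom (ZMod M)) J, ← map_mul, hF, hK]
  have h2 := coeff_eq_of_mul_eq (isUnit_Hs (ZMod M) J) h1
    (fun i hi => Rep.ext r2 rK i hi) i hi
  rw [PowerSeries.coeff_map] at h2
  rw [← r1.co i hi, ← h2]
  rfl

end Pool.Agent.X29.Asd
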