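import Pool.Agent.X29.Asd.Chain

set_option autoImplicit false

/-!
# The three computations (`J = 1679`, `p = 2, 3, 5`)
-/

namespace Pool.Agent.X29.Asd

theorem ok2 : Ok (2 ^ 96) 8 3 1679 :=
  ⟨by norm_num, by norm_num, by norm_num, by norm_num, by norm_num⟩
theorem ok3 : Ok (2 ^ 96) 729 5 1679 :=
  ⟨by norm_num, by norm_num, by norm_num, by norm_num, by norm_num⟩
theorem ok5 : Ok (2 ^ 96) (5 ^ 15) 12 1679 :=
  ⟨by norm_num, by norm_num, by norm_num, by norm_num, by norm_num⟩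

/-- check a list of digits -/
def digs (B A : ℕ) : List (ℕ × ℕ) → Bool
  | [] => true
  | (i, v) :: t => Nat.beq (dig B i A) v && digs B A t

theorem digs_spec {B A : ℕ} : ∀ {t : List (ℕ × ℕ)}, digs B A t = true →
    ∀ x ∈ t, dig B x.1 A = x.2 := by
  intro t
  induction t with
  | nil => intro _ x hx; simp at hx
  | cons y t ih =>
    intro h x hx
    obtain ⟨i, v⟩ := y
    unfold digs at h
    rw [Bool.and_eq_true] at h
    rcases List.mem_cons.mp hx with rfl | hx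
    · exact Nat.eq_of_beq_eq_true h.1
    · exact ih h.2 x hx

theorem chk2 : (Nat.beq (rmul (2 ^ 96) 8 3 (nH (2 ^ 96) 8 3 1679) (rmul (2 ^ 96) 8 3 (nK4 (2 ^ 96) 8 3) (ninv (2 ^ 96) 8 (nH (2 ^ 96) 8 3 1679) 3)))
    (nK4 (2 ^ 96) 8 3) && digs (2 ^ 96) (rmul (2 ^ 96) 8 3 (nK4 (2 ^ 96) 8 3) (ninv (2 ^ 96) 8 (nH (2 ^ 96) 8 3 1679) 3)) [(4, 7), (2, 7), (1, 1)])
      = true := by decide +kernel

theorem chk3 : (Nat.beq (rmul (2 ^ 96) 729 5 (nH (2 ^ 96) 729 5 1679)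
    (rmul (2 ^ 96) 729 5 (nK4 (2 ^ 96) 729 5) (ninv (2 ^ 96) 729 (nH (2 ^ 96) 729 5 1679) 5))) (nK4 (2 ^ 96) 729 5) &&
    digs (2 ^ 96) (rmul (2 ^ 96) 729 5 (nK4 (2 ^ 96) 729 5) (ninv (2 ^ 96) 729 (nH (2 ^ 96) 729 5 1679) 5)) [(27, 466), (9, 19), (3, 670), (1, 1)])
      = true := by decide +kernel

theorem chk5 : (Nat.beq (rmul (2 ^ 96) (5 ^ 15) 12 (nH (2 ^ 96) (5 ^ 15) 12 1679)
    (rmul (2 ^ 96) (5 ^ 15) 12 (nK6 (2 ^ 96) (5 ^ 15) 12) (ninv (2 ^ 96) (5 ^ 15) (nH (2 ^ 96) (5 ^ 15) 12 1679) 12))) (nK6 (2 ^ 96) (5 ^ 15) 12) &&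
    digs (2 ^ 96) (rmul (2 ^ 96) (5 ^ 15) 12 (nK6 (2 ^ 96) (5 ^ 15) 12) (ninv (2 ^ 96) (5 ^ 15) (nH (2 ^ 96) (5 ^ 15) 12 1679) 12)) [(3125, 14836075766), (625, 26148320811),
      (125, 6738922506), (25, 11827145351), (5, 18653531771), (1, 1)])
      = true := by decide +kernel

/-- congruence from the digits -/
theorem dvd_of {B M h J : ℕ} (o : Ok B M h J) {K : (R : Type) → [CommRing R] → PowerSeries R}
    (hK : PowerSeries.map (Int.castRingHom (ZMod M)) (K ℤ) = K (ZMod M)) {nK : ℕ}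
    (rK : Rep B M (2 ^ h) (M - 1) (K (ZMod M)) nK) (A C : ℕ) (t : List (ℕ × ℕ))
    (chk : (Nat.beq (rmul B M h (nH B M h J) (rmul B M h A C)) nK &&
      digs B (rmul B M h A C) t) = true)
    {F : PowerSeries ℤ} (hF : Hs ℤ J * F = K ℤ) (x : ℕ × ℕ) (hx : x ∈ t) (hi : x.1 < 2 ^ h) :
    ∃ z : ℤ, PowerSeries.coeff x.1 F = x.2 + M * z := by
  rw [Bool.and_eq_true] at chk
  have h1 := main o hK rK A C (Nat.eq_of_beq_eq_true chk.1) hF x.1 hi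
  rw [digs_spec chk.2 x hx] at h1
  have h2 : ((PowerSeries.coeff x.1 F : ℤ) : ZMod M) = ((x.2 : ℤ) : ZMod M) := by
    rw [h1]
    norm_cast
  rw [ZMod.intCast_eq_intCast_iff_dvd_sub] at h2
  obtain ⟨z, hz⟩ := h2
  refine ⟨-z, ?_⟩
  linarith

theorem fin2 {F : PowerSeries ℤ} (hF : Hs ℤ 1679 * F = K4 ℤ) :
    ¬ ((2 : ℤ) ^ 3 ∣ 1 * PowerSeries.coeff 4 F + 1 * PowerSeries.coeff 2 F +
      (-2) * PowerSeries.coeff 1 F) := by
  have key := dvd_of ok2 (map_K4 _) (rep_K4 ok2) (nK4 (2 ^ 96) 8 3)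
    (ninv (2 ^ 96) 8 (nH (2 ^ 96) 8 3 1679) 3) [(4, 7), (2, 7), (1, 1)] chk2 hF
  obtain ⟨z1, h1⟩ := key (4, 7) (by simp) (by norm_num)
  obtain ⟨z2, h2⟩ := key (2, 7) (by simp) (by norm_num)
  obtain ⟨z3, h3⟩ := key (1, 1) (by simp) (by norm_num)
  dsimp only at h1 h2 h3
  push_cast at h1 h2 h3
  rw [h1, h2, h3]
  rintro ⟨w, hw⟩
  omega

theorem fin3 {F : PowerSeries ℤ} (hF : Hs ℤ 1679 * F = K4 ℤ) :
    ¬ ((3 : ℤ) ^ 6 ∣ 1 * PowerSeries.coeff 27 F + (-1) * PowerSeries.coeff 9 F +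
      3 * PowerSeries.coeff 3 F + (-27) * PowerSeries.coeff 1 F) := by
  have key := dvd_of ok3 (map_K4 _) (rep_K4 ok3) (nK4 (2 ^ 96) 729 5)
    (ninv (2 ^ 96) 729 (nH (2 ^ 96) 729 5 1679) 5) [(27, 466), (9, 19), (3, 670), (1, 1)] chk3 hF
  obtain ⟨z1, h1⟩ := key (27, 466) (by simp) (by norm_num)
  obtain ⟨z2, h2⟩ := key (9, 19) (by simp) (by norm_num)
  obtain ⟨z3, h3⟩ := key (3, 670) (by simp) (by norm_num)
  obtain ⟨z4, h4⟩ := key (1, 1) (by simp) (by norm_num)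
  dsimp only at h1 h2 h3 h4
  push_cast at h1 h2 h3 h4
  rw [h1, h2, h3, h4]
  rintro ⟨w, hw⟩
  omega

theorem fin5 {F : PowerSeries ℤ} (hF : Hs ℤ 1679 * F = K6 ℤ) :
    ¬ ((5 : ℤ) ^ 15 ∣ 1 * PowerSeries.coeff 3125 F + (-11) * PowerSeries.coeff 625 F +
      (-495) * PowerSeries.coeff 125 F + 12375 * PowerSeries.coeff 25 F +
      171875 * PowerSeries.coeff 5 F + (-9765625) * PowerSeries.coeff 1 F) := by
  have key := dvd_of ok5 (map_K6 _) (rep_K6 ok5) (nK6 (2 ^ 96) (5 ^ 15) 12)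
    (ninv (2 ^ 96) (5 ^ 15) (nH (2 ^ 96) (5 ^ 15) 12 1679) 12) [(3125, 14836075766), (625, 26148320811),
      (125, 6738922506), (25, 11827145351), (5, 18653531771), (1, 1)] chk5 hF
  obtain ⟨z1, h1⟩ := key (3125, 14836075766) (by simp) (by norm_num)
  obtain ⟨z2, h2⟩ := key (625, 26148320811) (by simp) (by norm_num)
  obtain ⟨z3, h3⟩ := key (125, 6738922506) (by simp) (by norm_num)
  obtain ⟨z4, h4⟩ := key (25, 11827145351) (by simp) (by norm_num)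
  obtain ⟨z5, h5⟩ := key (5, 18653531771) (by simp) (by norm_num)
  obtain ⟨z6, h6⟩ := key (1, 1) (by simp) (by norm_num)
  dsimp only at h1 h2 h3 h4 h5 h6
  push_cast at h1 h2 h3 h4 h5 h6
  rw [h1, h2, h3, h4, h5, h6]
  rintro ⟨w, hw⟩
  omega

end Pool.Agent.X29.Asd
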