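import Pool.Agent.X29.Asd.Pack

set_option autoImplicit false

/-!
# Divisor sums, packed
-/

namespace Pool.Agent.X29.Asd

open Finset

/-- `∑ n, (∑ d ∣ n, f d) q ^ n` -/
noncomputable def lam (R : Type*) [CommRing R] (f : ℕ → ℕ) : PowerSeries R :=
  PowerSeries.mk fun n => ((∑ d ∈ n.divisors, f d : ℕ) : R)

/-- the packed number of `∑ m ≥ 1, f d * q ^ (d * m)` -/
def gterm (B N : ℕ) (f : ℕ → ℕ) (d : ℕ) : ℕ :=
  f d * (B ^ d * (((B ^ d) ^ ((N - 1) / d) - 1) / (B ^ d - 1)))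

/-- tree summation of `g a + ⋯ + g (a + 2 ^ h - 1)` -/
def tsum2 (g : ℕ → ℕ) : ℕ → ℕ → ℕ
  | 0, a => g a
  | h + 1, a => tsum2 g h a + tsum2 g h (a + 2 ^ h)

theorem tsum2_eq (g : ℕ → ℕ) (h : ℕ) : ∀ a, tsum2 g h a = ∑ i ∈ range (2 ^ h), g (a + i) := by
  induction h with
  | zero => intro a; simp [tsum2]
  | succ h ih =>
    intro a
    have e : 2 ^ (h + 1) = 2 ^ h + 2 ^ h := by rw [pow_succ]; omega
    rw [tsum2, ih, ih, e, Finset.sum_range_add]
    congr 1
    apply Finset.sum_congr rfl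
    intro i _
    rw [add_assoc]

theorem geo (B N d : ℕ) (hB : 2 ≤ B) (hd : 0 < d) (hN : 0 < N) :
    B ^ d * (((B ^ d) ^ ((N - 1) / d) - 1) / (B ^ d - 1)) =
      ∑ n ∈ range N, if n ≠ 0 ∧ d ∣ n then B ^ n else 0 := by
  have h2 : 2 ≤ B ^ d := hB.trans (Nat.le_self_pow hd.ne' B)
  rw [← Nat.geomSum_eq h2, Finset.mul_sum, ← Finset.sum_filter]
  refine Finset.sum_bij (fun m _ => d * (m + 1)) ?_ ?_ ?_ ?_
  · intro m hm
    rw [mem_range] at hm
    rw [mem_filter, mem_range]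
    have h3 : m + 1 ≤ (N - 1) / d := hm
    rw [Nat.le_div_iff_mul_le hd] at h3
    refine ⟨?_, ?_, dvd_mul_right _ _⟩
    · rw [mul_comm]
      omega
    · exact Nat.mul_ne_zero hd.ne' (by omega)
  · intro a _ b _ h
    have := Nat.eq_of_mul_eq_mul_left hd h
    omega
  · intro n hn
    rw [mem_filter, mem_range] at hn
    obtain ⟨hn1, hn2, m, rfl⟩ := hn
    have hm : m ≠ 0 := by
      rintro rfl
      exact hn2 (by simp)
    refine ⟨m - 1, ?_, ?_⟩
    · rw [mem_range]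
      have : m ≤ (N - 1) / d := by
        rw [Nat.le_div_iff_mul_le hd, mul_comm]
        omega
      omega
    · congr 1
      omega
  · intro m _
    rw [pow_mul]
    ring

theorem sum_gterm (B N : ℕ) (f : ℕ → ℕ) (hB : 2 ≤ B) (hN : 0 < N) :
    ∑ d ∈ range N, gterm B N f d = ∑ n ∈ range N, (∑ d ∈ n.divisors, f d) * B ^ n := by
  have h1 : ∀ d ∈ range N, gterm B N f d =
      ∑ n ∈ range N, if n ≠ 0 ∧ d ∣ n then f d * B ^ n else 0 := by
    intro d _
    unfold gterm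
    rcases Nat.eq_zero_or_pos d with h0 | h0
    · subst h0
      rw [pow_zero, Nat.sub_self, Nat.div_zero, Nat.mul_zero, Nat.mul_zero]
      symm
      apply Finset.sum_eq_zero
      intro n _
      rw [if_neg]
      rintro ⟨ha, hb⟩
      exact ha (zero_dvd_iff.mp hb)
    · rw [geo B N d hB h0 hN, Finset.mul_sum]
      apply Finset.sum_congr rfl
      intro n _
      split_ifs <;> simp
  rw [Finset.sum_congr rfl h1, Finset.sum_comm]
  apply Finset.sum_congr rfl
  intro n hn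
  rw [mem_range] at hn
  rw [Finset.sum_mul, ← Finset.sum_filter]
  apply Finset.sum_congr
  · ext d
    rw [mem_filter, mem_range, Nat.mem_divisors]
    constructor
    · rintro ⟨_, h2, h3⟩
      exact ⟨h3, h2⟩
    · rintro ⟨h2, h3⟩
      exact ⟨lt_of_le_of_lt (Nat.le_of_dvd (Nat.pos_of_ne_zero h3) h2) hn, h3, h2⟩
  · intro _ _
    rfl

theorem Rep.lam {B M h L : ℕ} (f : ℕ → ℕ) (hB : 2 ^ h * L < B) (hB2 : 2 ≤ B)
    (hf : ∀ d, d < 2 ^ h → f d ≤ L) :
    Rep B M (2 ^ h) (2 ^ h * L) (lam (ZMod M) f) (tsum2 (gterm B (2 ^ h) f) h 0) := by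
  have hN : 0 < 2 ^ h := Nat.two_pow_pos h
  have e : tsum2 (gterm B (2 ^ h) f) h 0 =
      ∑ n ∈ range (2 ^ h), (∑ d ∈ n.divisors, f d) * B ^ n := by
    rw [tsum2_eq, ← sum_gterm B (2 ^ h) f hB2 hN]
    apply Finset.sum_congr rfl
    intro i _
    rw [Nat.zero_add]
  rw [e]
  apply Rep.of_sum hB
  · intro n hn
    calc ∑ d ∈ n.divisors, f d ≤ ∑ d ∈ n.divisors, L := by
          apply Finset.sum_le_sum
          intro d hd
          rw [Nat.mem_divisors] at hd
          exact hf d (lt_of_le_of_lt (Nat.le_of_dvd (Nat.pos_of_ne_zero hd.2) hd.1) hn)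
      _ = n.divisors.card * L := by rw [Finset.sum_const, smul_eq_mul]
      _ ≤ 2 ^ h * L := by
          apply Nat.mul_le_mul_right
          exact (Nat.card_divisors_le_self n).trans hn.le
  · intro n _
    unfold Asd.lam
    rw [PowerSeries.coeff_mk]

end Pool.Agent.X29.Asd
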