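import Mathlib

set_option autoImplicit false

/-!
# Truncated power series modulo `M`, packed into natural numbers

A natural number `A < B ^ N` with digits (in base `B`) less than `M` represents a power series
over `ZMod M` up to degree `N - 1`. Products of packed series are products of natural numbers,
followed by a reduction of the digits modulo `M`.
-/

namespace Pool.Agent.X29.Asd

open Finset

/-- the digit number `i` of `A` in base `B` -/
def dig (B i A : ℕ) : ℕ := A / B ^ i % B

theorem dig_succ (B i A : ℕ) : dig B (i + 1) A = dig B i (A / B) := by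
  unfold dig
  rw [Nat.div_div_eq_div_mul, pow_succ']

theorem dig_zero (B A : ℕ) : dig B 0 A = A % B := by
  unfold dig
  rw [pow_zero, Nat.div_one]

theorem dig_eval {B : ℕ} (hB : 0 < B) (i : ℕ) : ∀ P : Polynomial ℕ, (∀ i, P.coeff i < B) →
    dig B i (P.eval B) = P.coeff i := by
  have key : ∀ P : Polynomial ℕ, P.eval B = P.divX.eval B * B + P.coeff 0 := by
    intro P
    conv_lhs => rw [← Polynomial.divX_mul_X_add P]
    simp
  induction i with
  | zero =>
    intro P hP
    rw [dig_zero, key P, Nat.mul_add_mod_self_right, Nat.mod_eq_of_lt (hP 0)]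
  | succ i ih =>
    intro P hP
    rw [dig_succ, key P, Nat.mul_comm, Nat.mul_add_div hB, Nat.div_eq_of_lt (hP 0), Nat.add_zero,
      ih _ (fun j => by rw [Polynomial.coeff_divX]; exact hP _), Polynomial.coeff_divX]

/-- the polynomial of the digits -/
noncomputable def pol (x : ℕ → ℕ) (N : ℕ) : Polynomial ℕ :=
  ∑ i ∈ range N, Polynomial.monomial i (x i)

theorem coeff_pol (x : ℕ → ℕ) (N j : ℕ) : (pol x N).coeff j = if j < N then x j else 0 := by
  unfold pol
  rw [Polynomial.finsetSum_coeff]
  simp only [Polynomial.coeff_monomial]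
  rw [Finset.sum_ite_eq' (range N) j x]
  simp [Finset.mem_range]

theorem eval_pol (x : ℕ → ℕ) (N B : ℕ) : (pol x N).eval B = ∑ i ∈ range N, x i * B ^ i := by
  unfold pol
  rw [Polynomial.eval_finsetSum]
  simp

theorem dig_sum {B N : ℕ} (hB : 0 < B) {x : ℕ → ℕ} (hx : ∀ i, i < N → x i < B) {j : ℕ}
    (hj : j < N) : dig B j (∑ i ∈ range N, x i * B ^ i) = x j := by
  rw [← eval_pol, dig_eval hB, coeff_pol, if_pos hj]
  intro i
  rw [coeff_pol]
  split_ifs with h
  · exact hx i h
  · exact hB

theorem sum_dig {B : ℕ} (N : ℕ) : ∀ A : ℕ, A < B ^ N →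
    ∑ i ∈ range N, dig B i A * B ^ i = A := by
  induction N with
  | zero =>
    intro A hA
    simp at hA
    simp [hA]
  | succ N ih =>
    intro A hA
    rw [Finset.sum_range_succ']
    have h1 : A / B < B ^ N := by
      rw [pow_succ'] at hA
      exact Nat.div_lt_of_lt_mul hA
    have h2 := ih _ h1
    have h3 : ∑ i ∈ range N, dig B (i + 1) A * B ^ (i + 1) = A / B * B := by
      have h4 : ∑ i ∈ range N, dig B (i + 1) A * B ^ (i + 1) =
          (∑ i ∈ range N, dig B i (A / B) * B ^ i) * B := by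
        rw [Finset.sum_mul]
        apply Finset.sum_congr rfl
        intro i _
        rw [dig_succ, pow_succ]
        ring
      rw [h4, h2]
    rw [h3, dig_zero, pow_zero, Nat.mul_one]
    exact Nat.div_add_mod' A B

theorem sum_lt {B : ℕ} (N : ℕ) {x : ℕ → ℕ} (hx : ∀ i, i < N → x i < B) :
    ∑ i ∈ range N, x i * B ^ i < B ^ N := by
  induction N with
  | zero => simp
  | succ N ih =>
    rw [Finset.sum_range_succ, pow_succ]
    have h1 := ih (fun i hi => hx i (by omega))
    have h2 := hx N (by omega)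
    calc ∑ i ∈ range N, x i * B ^ i + x N * B ^ N < B ^ N + x N * B ^ N := by omega
      _ = (x N + 1) * B ^ N := by ring
      _ ≤ B * B ^ N := Nat.mul_le_mul_right _ h2
      _ = B ^ N * B := Nat.mul_comm _ _

/-- digits of a product of packed numbers with small digits -/
theorem dig_mul {B N K L A C : ℕ} (hB : N * (K * L) < B) (hA : A < B ^ N) (hC : C < B ^ N)
    (hA' : ∀ i, i < N → dig B i A ≤ K) (hC' : ∀ i, i < N → dig B i C ≤ L)
    (_hK : K < B) (_hL : L < B) {j : ℕ} (hj : j < N) :
    dig B j (A * C) = ∑ q ∈ antidiagonal j, dig B q.1 A * dig B q.2 C := by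
  have hB0 : 0 < B := by omega
  have e1 : A = (pol (fun i => dig B i A) N).eval B := by
    rw [eval_pol, sum_dig N A hA]
  have e2 : C = (pol (fun i => dig B i C) N).eval B := by
    rw [eval_pol, sum_dig N C hC]
  have e3 : A * C = (pol (fun i => dig B i A) N * pol (fun i => dig B i C) N).eval B := by
    rw [Polynomial.eval_mul, ← e1, ← e2]
  rw [e3, dig_eval hB0]
  · rw [Polynomial.coeff_mul]
    apply Finset.sum_congr rfl
    intro q hq
    rw [Finset.HasAntidiagonal.mem_antidiagonal] at hq
    rw [coeff_pol, coeff_pol, if_pos (by omega), if_pos (by omega)]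
  · intro i
    rw [Polynomial.coeff_mul, Finset.Nat.sum_antidiagonal_eq_sum_range_succ
      (fun a b => (pol (fun i => dig B i A) N).coeff a * (pol (fun i => dig B i C) N).coeff b)]
    have h1 : ∀ a ∈ range i.succ, a ∉ range N → (pol (fun i => dig B i A) N).coeff a *
        (pol (fun i => dig B i C) N).coeff (i - a) = 0 := by
      intro a _ ha
      rw [mem_range] at ha
      rw [coeff_pol, if_neg ha, Nat.zero_mul]
    have h2 : ∑ a ∈ range i.succ, (pol (fun i => dig B i A) N).coeff a *
        (pol (fun i => dig B i C) N).coeff (i - a) ≤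
        ∑ a ∈ range N, K * L := by
      calc _ = ∑ a ∈ (range i.succ).filter (fun a => a ∈ range N),
            (pol (fun i => dig B i A) N).coeff a *
              (pol (fun i => dig B i C) N).coeff (i - a) := by
            rw [Finset.sum_filter]
            apply Finset.sum_congr rfl
            intro a ha
            split_ifs with h
            · rfl
            · exact h1 a ha h
        _ ≤ ∑ a ∈ (range i.succ).filter (fun a => a ∈ range N), K * L := by
            apply Finset.sum_le_sum
            intro a ha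
            rw [mem_filter, mem_range, mem_range] at ha
            apply Nat.mul_le_mul
            · rw [coeff_pol, if_pos ha.2]
              exact hA' a ha.2
            · rw [coeff_pol]
              split_ifs with h
              · exact hC' _ h
              · exact Nat.zero_le _
        _ ≤ ∑ a ∈ range N, K * L := by
            apply Finset.sum_le_sum_of_subset
            intro a ha
            exact (mem_filter.mp ha).2
    rw [Finset.sum_const, card_range, smul_eq_mul] at h2
    omega

theorem dig_mod {B N A i : ℕ} (hi : i < N) : dig B i (A % B ^ N) = dig B i A := by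
  unfold dig
  have h : B ^ N = B ^ i * (B * B ^ (N - i - 1)) := by
    rw [← pow_succ', ← pow_add]
    congr 1
    omega
  rw [h, Nat.mod_mul_right_div_self, Nat.mod_mul_right_mod]

theorem dig_add {B N A C i : ℕ} (hA : A < B ^ N) (hC : C < B ^ N)
    (h : ∀ i, i < N → dig B i A + dig B i C < B) (hi : i < N) :
    dig B i (A + C) = dig B i A + dig B i C := by
  have hB : 0 < B := by
    rcases Nat.eq_zero_or_pos B with h0 | h0
    · subst h0
      exact absurd (h i hi) (by omega)
    · exact h0
  have e1 : A + C = ∑ i ∈ range N, (dig B i A + dig B i C) * B ^ i := by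
    conv_lhs => rw [← sum_dig N A hA, ← sum_dig N C hC]
    rw [← Finset.sum_add_distrib]
    apply Finset.sum_congr rfl
    intro i _
    ring
  rw [e1, dig_sum hB h hi]

theorem dig_smul {B N A c i : ℕ} (hB : 0 < B) (hA : A < B ^ N)
    (h : ∀ i, i < N → c * dig B i A < B) (hi : i < N) :
    dig B i (c * A) = c * dig B i A := by
  have e1 : c * A = ∑ i ∈ range N, (c * dig B i A) * B ^ i := by
    conv_lhs => rw [← sum_dig N A hA]
    rw [Finset.mul_sum]
    apply Finset.sum_congr rfl
    intro i _
    ring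
  rw [e1, dig_sum hB h hi]

/-- reduction of the digits modulo `M` (the first `2 ^ h` digits) -/
def red (B M : ℕ) : ℕ → ℕ → ℕ
  | 0, A => A % M
  | h + 1, A => red B M h (A % B ^ (2 ^ h)) + B ^ (2 ^ h) * red B M h (A / B ^ (2 ^ h))

theorem red_spec {B M : ℕ} (hM : 0 < M) (hMB : M ≤ B) (h : ℕ) : ∀ A : ℕ, A < B ^ (2 ^ h) →
    red B M h A = ∑ i ∈ range (2 ^ h), (dig B i A % M) * B ^ i := by
  induction h with
  | zero =>
    intro A hA
    simp only [pow_zero, pow_one] at hA
    simp only [red, pow_zero, Finset.sum_range_one, Nat.mul_one, dig_zero, Nat.mod_eq_of_lt hA]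
  | succ h ih =>
    intro A hA
    have hB0 : 0 < B := lt_of_lt_of_le hM hMB
    have hP : 0 < B ^ (2 ^ h) := Nat.pow_pos hB0
    have e : 2 ^ (h + 1) = 2 ^ h + 2 ^ h := by rw [pow_succ]; omega
    rw [red, ih _ (Nat.mod_lt _ hP), ih]
    · rw [e, Finset.sum_range_add, Finset.mul_sum]
      congr 1
      · apply Finset.sum_congr rfl
        intro i hi
        rw [mem_range] at hi
        rw [dig_mod hi]
      · apply Finset.sum_congr rfl
        intro i _
        have e2 : dig B i (A / B ^ (2 ^ h)) = dig B (2 ^ h + i) A := by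
          unfold dig
          rw [Nat.div_div_eq_div_mul, ← pow_add]
        rw [e2, pow_add]
        ring
    · rw [e, pow_add] at hA
      exact Nat.div_lt_of_lt_mul hA

theorem red_lt {B M : ℕ} (hM : 0 < M) (hMB : M ≤ B) (h : ℕ) {A : ℕ} (hA : A < B ^ (2 ^ h)) :
    red B M h A < B ^ (2 ^ h) := by
  rw [red_spec hM hMB h A hA]
  exact sum_lt _ (fun i _ => lt_of_lt_of_le (Nat.mod_lt _ hM) hMB)

theorem dig_red {B M : ℕ} (hM : 0 < M) (hMB : M ≤ B) (h : ℕ) {A i : ℕ} (hA : A < B ^ (2 ^ h))
    (hi : i < 2 ^ h) : dig B i (red B M h A) = dig B i A % M := by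
  rw [red_spec hM hMB h A hA]
  exact dig_sum (lt_of_lt_of_le hM hMB)
    (fun i _ => lt_of_lt_of_le (Nat.mod_lt _ hM) hMB) hi

/-- `A` represents the power series `f` up to degree `N - 1`, with digits at most `L` -/
structure Rep (B M N L : ℕ) (f : PowerSeries (ZMod M)) (A : ℕ) : Prop where
  lt : A < B ^ N
  lb : L < B
  dl : ∀ i, i < N → dig B i A ≤ L
  co : ∀ i, i < N → PowerSeries.coeff i f = ((dig B i A : ℕ) : ZMod M)

theorem Rep.ofRed {B M h L : ℕ} (hM : 0 < M) (hMB : M ≤ B) {f : PowerSeries (ZMod M)} {A : ℕ}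
    (hA : Rep B M (2 ^ h) L f A) : Rep B M (2 ^ h) (M - 1) f (red B M h A) := by
  refine ⟨red_lt hM hMB h hA.lt, by omega, fun i hi => ?_, fun i hi => ?_⟩
  · rw [dig_red hM hMB h hA.lt hi]
    have := Nat.mod_lt (dig B i A) hM
    omega
  · rw [dig_red hM hMB h hA.lt hi, ZMod.natCast_mod]
    exact hA.co i hi

theorem Rep.mono {B M N L K : ℕ} {f : PowerSeries (ZMod M)} {A : ℕ}
    (hA : Rep B M N L f A) (h : L ≤ K) (hK : K < B) : Rep B M N K f A :=
  ⟨hA.lt, hK, fun i hi => (hA.dl i hi).trans h, hA.co⟩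

theorem Rep.mul' {B M N K L : ℕ} (hB : N * (K * L) < B)
    {f g : PowerSeries (ZMod M)} {A C : ℕ} (hA : Rep B M N K f A)
    (hC : Rep B M N L g C) : Rep B M N (N * (K * L)) (f * g) (A * C % B ^ N) := by
  have hB0 : 0 < B := by omega
  have hP : 0 < B ^ N := Nat.pow_pos hB0
  have hd : ∀ j, j < N → dig B j (A * C % B ^ N) =
      ∑ q ∈ antidiagonal j, dig B q.1 A * dig B q.2 C := by
    intro j hj
    rw [dig_mod hj, dig_mul hB hA.lt hC.lt hA.dl hC.dl hA.lb hC.lb hj]
  refine ⟨Nat.mod_lt _ hP, hB, fun i hi => ?_, fun i hi => ?_⟩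
  · rw [hd i hi]
    calc ∑ q ∈ antidiagonal i, dig B q.1 A * dig B q.2 C
        ≤ ∑ q ∈ antidiagonal i, K * L := by
          apply Finset.sum_le_sum
          intro q hq
          rw [Finset.HasAntidiagonal.mem_antidiagonal] at hq
          exact Nat.mul_le_mul (hA.dl _ (by omega)) (hC.dl _ (by omega))
      _ = (i + 1) * (K * L) := by
          rw [Finset.sum_const, Finset.Nat.card_antidiagonal, smul_eq_mul]
      _ ≤ N * (K * L) := Nat.mul_le_mul_right _ hi
  · rw [hd i hi, PowerSeries.coeff_mul]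
    push_cast
    apply Finset.sum_congr rfl
    intro q hq
    rw [Finset.HasAntidiagonal.mem_antidiagonal] at hq
    rw [hA.co _ (by omega), hC.co _ (by omega)]

/-- reduced product -/
def rmul (B M h A C : ℕ) : ℕ := red B M h (A * C % B ^ (2 ^ h))

theorem Rep.mul {B M h K L : ℕ} (hM : 0 < M) (hMB : M ≤ B) (hB : 2 ^ h * (K * L) < B)
    {f g : PowerSeries (ZMod M)} {A C : ℕ} (hA : Rep B M (2 ^ h) K f A)
    (hC : Rep B M (2 ^ h) L g C) : Rep B M (2 ^ h) (M - 1) (f * g) (rmul B M h A C) :=
  (Rep.mul' hB hA hC).ofRed hM hMB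

/-- a number with given (not too large) digits -/
theorem Rep.of_sum {B M N L : ℕ} (hL : L < B) {f : PowerSeries (ZMod M)}
    {x : ℕ → ℕ} (hx : ∀ i, i < N → x i ≤ L)
    (hf : ∀ i, i < N → PowerSeries.coeff i f = ((x i : ℕ) : ZMod M)) :
    Rep B M N L f (∑ i ∈ range N, x i * B ^ i) := by
  have hx' : ∀ i, i < N → x i < B := fun i hi => lt_of_le_of_lt (hx i hi) hL
  refine ⟨sum_lt N hx', hL, fun i hi => ?_, fun i hi => ?_⟩
  · rw [dig_sum (by omega) hx' hi]
    exact hx i hi
  · rw [dig_sum (by omega) hx' hi]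
    exact hf i hi

theorem Rep.add {B M N K L : ℕ} (hB : K + L < B)
    {f g : PowerSeries (ZMod M)} {A C : ℕ} (hA : Rep B M N K f A)
    (hC : Rep B M N L g C) : Rep B M N (K + L) (f + g) (A + C) := by
  have e : A + C = ∑ i ∈ range N, (dig B i A + dig B i C) * B ^ i := by
    conv_lhs => rw [← sum_dig N A hA.lt, ← sum_dig N C hC.lt]
    rw [← Finset.sum_add_distrib]
    apply Finset.sum_congr rfl
    intro i _
    ring
  rw [e]
  apply Rep.of_sum hB
  · intro i hi
    exact Nat.add_le_add (hA.dl i hi) (hC.dl i hi)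
  · intro i hi
    rw [map_add, hA.co i hi, hC.co i hi]
    push_cast
    rfl

theorem Rep.smul {B M N L : ℕ} (c : ℕ) (hB : c * L < B)
    {f : PowerSeries (ZMod M)} {A : ℕ} (hA : Rep B M N L f A) :
    Rep B M N (c * L) ((c : PowerSeries (ZMod M)) * f) (c * A) := by
  have e : c * A = ∑ i ∈ range N, (c * dig B i A) * B ^ i := by
    conv_lhs => rw [← sum_dig N A hA.lt]
    rw [Finset.mul_sum]
    apply Finset.sum_congr rfl
    intro i _
    ring
  rw [e]
  apply Rep.of_sum hB
  · intro i hi
    exact Nat.mul_le_mul_left _ (hA.dl i hi)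
  · intro i hi
    have h1 : (c : PowerSeries (ZMod M)) = PowerSeries.C ((c : ℕ) : ZMod M) := by
      rw [map_natCast]
    rw [h1, PowerSeries.coeff_C_mul, hA.co i hi]
    push_cast
    rfl

theorem Rep.one {B M N : ℕ} (hB : 1 < B) (hN : 0 < N) : Rep B M N 1 1 1 := by
  have e : (1 : ℕ) = ∑ i ∈ range N, (if i = 0 then 1 else 0) * B ^ i := by
    rw [Finset.sum_eq_single 0]
    · simp
    · intro b _ hb
      simp [hb]
    · intro h
      exact absurd (mem_range.mpr hN) h
  have h := Rep.of_sum (B := B) (M := M) (N := N) (L := 1) hB (f := 1)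
    (x := fun i => if i = 0 then 1 else 0)
    (by intro i _; split_ifs <;> omega)
    (by intro i _; rw [PowerSeries.coeff_one]; push_cast; rfl)
  rw [← e] at h
  exact h

theorem Rep.ext {B M N K L : ℕ} {f g : PowerSeries (ZMod M)} {A : ℕ} (hf : Rep B M N K f A)
    (hg : Rep B M N L g A) (i : ℕ) (hi : i < N) :
    PowerSeries.coeff i f = PowerSeries.coeff i g := by
  rw [hf.co i hi, hg.co i hi]

/-- the series given by the digits of a number -/
noncomputable def ser (B M A : ℕ) : PowerSeries (ZMod M) :=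
  PowerSeries.mk fun i => ((dig B i A : ℕ) : ZMod M)

theorem Rep.ser {B M N L A : ℕ} (hA : A < B ^ N) (hL : L < B) (h : ∀ i, i < N → dig B i A ≤ L) :
    Rep B M N L (ser B M A) A :=
  ⟨hA, hL, h, fun i _ => by unfold Asd.ser; rw [PowerSeries.coeff_mk]⟩

theorem red_red_dig {B M : ℕ} (hM : 0 < M) (hMB : M ≤ B) (h : ℕ) {A : ℕ}
    (hA : A < B ^ (2 ^ h)) (i : ℕ) (hi : i < 2 ^ h) : dig B i (red B M h A) ≤ M - 1 := by
  rw [dig_red hM hMB h hA hi]
  have := Nat.mod_lt (dig B i A) hM
  omega

/-- division of truncated series: `H * F = K`, `H * g = K` up to degree `N - 1`, `H` a unit -/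
theorem coeff_eq_of_mul_eq {R : Type*} [CommRing R] {H F g K : PowerSeries R} {N : ℕ}
    (hH : IsUnit H) (hF : H * F = K)
    (hg : ∀ i, i < N → PowerSeries.coeff i (H * g) = PowerSeries.coeff i K) (i : ℕ) (hi : i < N) :
    PowerSeries.coeff i F = PowerSeries.coeff i g := by
  obtain ⟨u, hu⟩ := hH
  have h1 : PowerSeries.X ^ N ∣ H * (F - g) := by
    rw [PowerSeries.X_pow_dvd_iff]
    intro m hm
    rw [mul_sub, map_sub, hF, hg m hm, sub_self]
  have h2 : PowerSeries.X ^ N ∣ (F - g) := by
    have h3 : F - g = (↑u⁻¹ : PowerSeries R) * (H * (F - g)) := by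
      rw [← mul_assoc, ← hu, Units.inv_mul, one_mul]
    rw [h3]
    exact Dvd.dvd.mul_left h1 _
  have h4 := (PowerSeries.X_pow_dvd_iff.mp h2) i hi
  rw [map_sub, sub_eq_zero] at h4
  exact h4

end Pool.Agent.X29.Asd
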